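import Pool.Agent.Helper85_CYD.StG

/-!
# RED: Gauss's lemma
-/

set_option autoImplicit false

open Polynomial

namespace Pool.Agent.CYD

/-- RED -/
theorem redMod (hCoe : CoeStmt) : RedStmt := by
  intro n h3 hodd hsq hno
  obtain ⟨-, h1⟩ := hCoe n hsq (by omega)
  set P : ℤ[X] := derivative (cyclotomic n ℤ) with hP
  have hP0 : IsUnit (P.coeff 0) := by
    have : P.coeff 0 = (cyclotomic n ℤ).coeff 1 := by
      rw [hP, coeff_derivative]
      simp
    rw [this]
    rcases h1 with h1 | h1 <;> rw [h1]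
    · exact isUnit_one
    · exact isUnit_one.neg
  have hunit : ∀ a : ℤ, C a ∣ P → IsUnit a := by
    intro a ha
    obtain ⟨q, hq⟩ := ha
    have : P.coeff 0 = a * q.coeff 0 := by rw [hq, coeff_C_mul]
    rw [this] at hP0
    exact isUnit_of_mul_isUnit_left hP0
  have hprim : P.IsPrimitive := hunit
  have hdeg : 1 ≤ P.natDegree := by
    have h4 : P.coeff (n.totient - 1) ≠ 0 := by
      have ht : 0 < n.totient := Nat.totient_pos.mpr (by omega)
      rw [hP, coeff_derivative, Nat.sub_add_cancel ht]
      have h5 : (cyclotomic n ℤ).coeff n.totient = 1 := by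
        have := (cyclotomic.monic n ℤ).coeff_natDegree
        rwa [natDegree_cyclotomic] at this
      rw [h5]
      have : ((n.totient - 1 : ℕ) : ℤ) + 1 ≠ 0 := by positivity
      simpa using this
    have h6 : n.totient - 1 ≤ P.natDegree := le_natDegree_of_ne_zero h4
    have h7 : 2 ≤ n.totient := by
      have := Nat.totient_even (n := n) (by omega)
      have ht : 0 < n.totient := Nat.totient_pos.mpr (by omega)
      obtain ⟨k, hk⟩ := this
      omega
    omega
  have hirr : Irreducible P := by
    constructor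
    · intro hu
      have := natDegree_eq_zero_of_isUnit hu
      omega
    · intro g h hgh
      by_cases hg : g.natDegree = 0
      · left
        rw [eq_C_of_natDegree_eq_zero hg] at hgh ⊢
        exact isUnit_C.mpr (hunit _ ⟨h, hgh⟩)
      · by_cases hh : h.natDegree = 0
        · right
          rw [eq_C_of_natDegree_eq_zero hh] at hgh ⊢
          exact isUnit_C.mpr (hunit _ ⟨g, by rw [hgh, mul_comm]⟩)
        · exact absurd ⟨h3, hodd, hsq, hgh.symm, by omega, by omega⟩ (hno g h)
  have := (IsPrimitive.Int.irreducible_iff_irreducible_map_cast hprim).mp hirr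
  rwa [hP, ← derivative_map, map_cyclotomic] at this

/-- DBL: twice the order. -/
theorem dbl : DblStmt := by
  intro n hodd hn hirr
  obtain ⟨z, hz⟩ : ∃ z : ℂ, IsPrimitiveRoot z n :=
    ⟨_, Complex.isPrimitiveRoot_exp n (by omega)⟩
  have hz' : IsPrimitiveRoot (-z) (2 * n) := by
    have h1 : IsPrimitiveRoot (-1 : ℂ) 2 := IsPrimitiveRoot.neg_one 0 (by norm_num)
    have h3 : orderOf ((-1 : ℂ) * z) = 2 * n := by
      rw [(Commute.all (-1 : ℂ) z).orderOf_mul_eq_mul_orderOf_of_coprime]
      · rw [← h1.eq_orderOf, ← hz.eq_orderOf]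
      · rw [← h1.eq_orderOf, ← hz.eq_orderOf]
        exact Nat.coprime_two_left.mpr hodd
    have h4 := IsPrimitiveRoot.orderOf ((-1 : ℂ) * z)
    rw [h3] at h4
    simpa using h4
  have e1 : cyclotomic n ℚ = minpoly ℚ z := cyclotomic_eq_minpoly_rat hz (by omega)
  have e2 : cyclotomic (2 * n) ℚ = minpoly ℚ (-z) := cyclotomic_eq_minpoly_rat hz' (by omega)
  rw [e2, minpoly.neg, ← e1]
  have e3 : derivative ((-1) ^ (cyclotomic n ℚ).natDegree * (cyclotomic n ℚ).comp (-X)) =
      (-1) ^ ((cyclotomic n ℚ).natDegree + 1) * algEquivAevalNegX (derivative (cyclotomic n ℚ)) := by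
    have e4 : algEquivAevalNegX (derivative (cyclotomic n ℚ)) =
      (derivative (cyclotomic n ℚ)).comp (-X) := rfl
    rw [e4]
    have e5 : ((-1 : ℚ[X]) ^ (cyclotomic n ℚ).natDegree) =
      C ((-1) ^ (cyclotomic n ℚ).natDegree) := by simp
    rw [pow_succ, e5, derivative_C_mul, derivative_comp]
    simp
  rw [e3]
  have hu : IsUnit ((-1 : ℚ[X]) ^ ((cyclotomic n ℚ).natDegree + 1)) := isUnit_one.neg.pow _
  rw [irreducible_isUnit_mul hu]
  exact (MulEquiv.irreducible_iff algEquivAevalNegX).mpr hirr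

end Pool.Agent.CYD
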